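import Pool.Agent.W500.CS.Stm

/-! # Project CQ, part MAXF -/

set_option autoImplicit false

open MeasureTheory Polynomial Metric Set Filter Topology
open scoped ComplexConjugate

namespace Pool.Agent.W155.CQ.MAXF

open Pool.Agent.W500.CS

lemma hasDerivAt_Gm (κ φ₀ q φ : ℝ) :
    HasDerivAt (fun φ : ℝ => Gm κ φ₀ q φ) ((κ + Complex.I) * Gm κ φ₀ q φ) φ := by
  unfold Gm
  have h1 : HasDerivAt (fun φ : ℝ => (φ : ℂ)) 1 φ := (hasDerivAt_id φ).ofReal_comp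
  have h2 : HasDerivAt (fun φ : ℝ => (κ : ℂ) * ((φ : ℂ) - φ₀) + Complex.I * φ)
      (κ * 1 + Complex.I * 1) φ := ((h1.sub_const _).const_mul _).add (h1.const_mul _)
  have h3 := (h2.cexp).const_mul (q : ℂ)
  refine h3.congr_deriv ?_
  ring

lemma contDiff_Gm (κ φ₀ q : ℝ) : ContDiff ℝ 2 (fun φ : ℝ => Gm κ φ₀ q φ) := by
  unfold Gm
  have h1 : ContDiff ℝ 2 (fun φ : ℝ => (φ : ℂ)) := Complex.ofRealCLM.contDiff
  exact contDiff_const.mul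
    (((contDiff_const.mul (h1.sub contDiff_const)).add (contDiff_const.mul h1)).cexp)

lemma norm_Gm (κ φ₀ q φ : ℝ) : ‖Gm κ φ₀ q φ‖ = |q| * Real.exp (κ * (φ - φ₀)) := by
  unfold Gm
  rw [norm_mul, Complex.norm_exp, Complex.norm_real, Real.norm_eq_abs]
  congr 2
  simp

/-- germs -/
lemma analyticAt_arc (κ φ₀ : ℝ) (Φ : ℝ → ℝ) (hΦ : AnalyticAt ℝ Φ 0) :
    AnalyticAt ℝ (fun q => Gm κ φ₀ q (Φ q)) 0 := by
  unfold Gm
  have h1 : AnalyticAt ℝ (fun q : ℝ => (q : ℂ)) 0 := Complex.ofRealCLM.analyticAt 0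
  have h2 : AnalyticAt ℝ (fun q : ℝ => ((Φ q : ℝ) : ℂ)) 0 :=
    (Complex.ofRealCLM.analyticAt (Φ 0)).comp hΦ
  have h3 : AnalyticAt ℝ (fun q : ℝ => (κ : ℂ) * (((Φ q : ℝ) : ℂ) - φ₀) + Complex.I * (Φ q : ℝ)) 0 :=
    (analyticAt_const.mul (h2.sub analyticAt_const)).add (analyticAt_const.mul h2)
  have h4 : AnalyticAt ℝ Complex.exp
      ((κ : ℂ) * (((Φ 0 : ℝ) : ℂ) - φ₀) + Complex.I * (Φ 0 : ℝ)) :=
    (analyticAt_cexp).restrictScalars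
  exact h1.mul (AnalyticAt.fun_comp (g := Complex.exp) (f := fun q : ℝ =>
    (κ : ℂ) * (((Φ q : ℝ) : ℂ) - φ₀) + Complex.I * (Φ q : ℝ)) h4 h3)

lemma arc_zero (κ φ₀ : ℝ) (Φ : ℝ → ℝ) : Gm κ φ₀ 0 (Φ 0) = 0 := by
  unfold Gm; simp

lemma deriv_arc (κ φ₀ : ℝ) (Φ : ℝ → ℝ) (hΦ : AnalyticAt ℝ Φ 0) :
    deriv (fun q => Gm κ φ₀ q (Φ q)) 0 ≠ 0 := by
  have h1 : HasDerivAt (fun q : ℝ => (q : ℂ)) 1 0 := (hasDerivAt_id 0).ofReal_comp
  have h2 : HasDerivAt (fun q : ℝ => ((Φ q : ℝ) : ℂ)) ((deriv Φ 0 : ℝ) : ℂ) 0 :=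
    (hΦ.differentiableAt.hasDerivAt).ofReal_comp
  have h3 : HasDerivAt (fun q : ℝ => (κ : ℂ) * (((Φ q : ℝ) : ℂ) - φ₀) + Complex.I * (Φ q : ℝ))
      (κ * ((deriv Φ 0 : ℝ) : ℂ) + Complex.I * ((deriv Φ 0 : ℝ) : ℂ)) 0 :=
    ((h2.sub_const _).const_mul _).add (h2.const_mul _)
  have h4 := h1.mul h3.cexp
  have h5 : HasDerivAt (fun q => Gm κ φ₀ q (Φ q)) _ 0 := h4
  rw [h5.deriv]
  simp [Complex.exp_ne_zero]

lemma cont_of_SC1 {a b : ℝ} {v : ℝ → ℝ} (hsc : SC1 a b v) : ∀ t ∈ Ioo a b, ContinuousAt v t := by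
  intro t ht
  obtain ⟨ε, hε, C, hc⟩ := hsc t ht
  have h1 := (hc.continuousOn isOpen_Ioo).continuousAt
    (Ioo_mem_nhds (show t - ε < t by linarith) (show t < t + ε by linarith))
  have h2 : ContinuousAt (fun y : ℝ => C * y ^ 2) t := by fun_prop
  have h3 := h1.sub h2
  refine h3.congr (Eventually.of_forall fun y => ?_)
  simp

/-- Lipschitz bound from the right derivatives -/
lemma lip {a b M : ℝ} {v : ℝ → ℝ} (hcont : ∀ t ∈ Ioo a b, ContinuousAt v t)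
    (hd : ∀ t ∈ Ioo a b, ∃ d, |d| ≤ M ∧ HasDerivWithinAt v d (Ioi t) t) :
    ∀ x ∈ Ioo a b, ∀ y ∈ Ioo a b, |v y - v x| ≤ M * |y - x| := by
  have key : ∀ x ∈ Ioo a b, ∀ y ∈ Ioo a b, x ≤ y → |v y - v x| ≤ M * |y - x| := by
    intro x hx y hy hxy
    choose! d hdM hdd using hd
    have hsub : Icc x y ⊆ Ioo a b := fun z hz => ⟨hx.1.trans_le hz.1, hz.2.trans_lt hy.2⟩
    have := norm_image_sub_le_of_norm_deriv_right_le_segment (f := v) (f' := d) (C := M)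
      (a := x) (b := y)
      (fun z hz => (hcont z (hsub hz)).continuousWithinAt)
      (fun z hz => (hasDerivWithinAt_Ioi_iff_Ici).1 (hdd z (hsub (Ico_subset_Icc_self hz))))
      (fun z hz => hdM z (hsub (Ico_subset_Icc_self hz))) y (right_mem_Icc.2 hxy)
    rwa [Real.norm_eq_abs, ← abs_of_nonneg (sub_nonneg.2 hxy)] at this
  intro x hx y hy
  rcases le_total x y with hxy | hxy
  · exact key x hx y hy hxy
  · rw [abs_sub_comm, abs_sub_comm y x]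
    exact key y hy x hx hxy

lemma hasDerivAt_H {κ φ₀ q φ : ℝ} {h : ℂ → ℂ} {b : ℂ} (hs : HasDerivAt h b (Gm κ φ₀ q φ)) :
    HasDerivAt (fun φ : ℝ => (h (Gm κ φ₀ q φ)).re)
      ((b * ((κ + Complex.I) * Gm κ φ₀ q φ)).re) φ := by
  have h1 := HasDerivAt.scomp φ hs (hasDerivAt_Gm κ φ₀ q φ)
  have h2 := Complex.reCLM.hasFDerivAt.comp_hasDerivAt φ h1
  refine h2.congr_deriv ?_
  simp only [smul_eq_mul, Complex.reCLM_apply]
  rw [mul_comm]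

lemma bounded {r : ℕ} {R κ φ₀ δ ε : ℝ} {B : Fin r → ℂ → ℂ} (hR : 0 < R) (hε : 0 < ε)
    (hB : ∀ i, DifferentiableOn ℂ (B i) (ball 0 R)) :
    ∃ M, 0 ≤ M ∧ ∃ ε₁, 0 < ε₁ ∧ ε₁ ≤ ε ∧ ∀ i, ∀ q ∈ Ioo 0 ε₁, ∀ φ ∈ Icc (φ₀ - δ) (φ₀ + δ),
      |(B i (Gm κ φ₀ q φ) * ((κ + Complex.I) * Gm κ φ₀ q φ)).re| ≤ M := by
  have hC : ∀ i, ∃ C, ∀ s ∈ closedBall (0 : ℂ) (R / 2), ‖B i s‖ ≤ C := fun i =>
    (isCompact_closedBall _ _).exists_bound_of_continuousOn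
      ((hB i).continuousOn.mono (closedBall_subset_ball (by linarith)))
  choose C hC using hC
  have hS : ∀ i, ∀ s ∈ closedBall (0 : ℂ) (R / 2), ‖B i s‖ ≤ ∑ j, |C j| := fun i s hs =>
    ((hC i s hs).trans (le_abs_self _)).trans
      (Finset.single_le_sum (f := fun j => |C j|) (fun j _ => abs_nonneg _) (Finset.mem_univ i))
  have hS0 : 0 ≤ ∑ j, |C j| := Finset.sum_nonneg fun j _ => abs_nonneg _
  refine ⟨(∑ j, |C j|) * (‖(κ + Complex.I : ℂ)‖ * (R / 2)), by positivity,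
    min ε (R / 2 * Real.exp (-(|κ| * δ))), lt_min hε (by positivity), min_le_left _ _, ?_⟩
  intro i q hq φ hφ
  have hq1 : 0 < q := hq.1
  have hq2 : q < R / 2 * Real.exp (-(|κ| * δ)) := hq.2.trans_le (min_le_right _ _)
  have hn : ‖Gm κ φ₀ q φ‖ ≤ R / 2 := by
    rw [norm_Gm, abs_of_pos hq1]
    have h1 : κ * (φ - φ₀) ≤ |κ| * δ := by
      refine (le_abs_self _).trans ?_
      rw [abs_mul]
      refine mul_le_mul_of_nonneg_left ?_ (abs_nonneg _)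
      rw [abs_le]; constructor <;> linarith [hφ.1, hφ.2]
    calc q * Real.exp (κ * (φ - φ₀)) ≤ q * Real.exp (|κ| * δ) :=
          mul_le_mul_of_nonneg_left (Real.exp_le_exp.2 h1) hq1.le
      _ ≤ (R / 2 * Real.exp (-(|κ| * δ))) * Real.exp (|κ| * δ) :=
          mul_le_mul_of_nonneg_right hq2.le (Real.exp_pos _).le
      _ = R / 2 := by rw [mul_assoc, ← Real.exp_add]; simp
  calc |(B i (Gm κ φ₀ q φ) * ((κ + Complex.I) * Gm κ φ₀ q φ)).re|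
      ≤ ‖B i (Gm κ φ₀ q φ) * ((κ + Complex.I) * Gm κ φ₀ q φ)‖ := Complex.abs_re_le_norm _
    _ = ‖B i (Gm κ φ₀ q φ)‖ * (‖(κ + Complex.I : ℂ)‖ * ‖Gm κ φ₀ q φ‖) := by
        rw [norm_mul, norm_mul]
    _ ≤ _ := mul_le_mul (hS i _ (by simpa using hn))
        (mul_le_mul_of_nonneg_left hn (norm_nonneg _)) (by positivity) hS0

/-- the last step, for one fixed radius -/
lemma final {r : ℕ} {α β u : ℝ} {J : Finset (Fin r)} {v : ℝ → ℝ} {H : Fin r → ℝ → ℝ}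
    (T : Finset ℝ) (hcH : ∀ i, ContinuousOn (H i) (Icc α β)) (hαT : α ∈ T) (hβT : β ∈ T)
    (hT : ∀ t ∈ T, t ∈ Icc α β → ∃ i ∈ J, v t = u + H i t)
    (hlow : ∀ i ∈ J, ∀ t ∈ Icc α β, u + H i t ≤ v t)
    (hag : ∀ i j, i ≠ j → ∀ t ∈ Icc α β, H i t = H j t → t ∈ T)
    (hqc : ∀ i x y z, α ≤ x → x ≤ y → y ≤ z → z ≤ β →
      v y - H i y ≤ max (v x - H i x) (v z - H i z)) :
    ∀ φ ∈ Icc α β, ∃ i ∈ J, v φ = u + H i φ := by
  intro φ hφ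
  by_cases hφT : φ ∈ T
  · exact hT φ hφT hφ
  have hn1 : (T.filter fun t => α ≤ t ∧ t ≤ φ).Nonempty :=
    ⟨α, Finset.mem_filter.2 ⟨hαT, le_rfl, hφ.1⟩⟩
  have hn2 : (T.filter fun t => φ ≤ t ∧ t ≤ β).Nonempty :=
    ⟨β, Finset.mem_filter.2 ⟨hβT, hφ.2, le_rfl⟩⟩
  obtain ⟨a, ha, hamax⟩ : ∃ a ∈ T.filter (fun t => α ≤ t ∧ t ≤ φ),
      ∀ t ∈ T.filter (fun t => α ≤ t ∧ t ≤ φ), t ≤ a :=
    ⟨_, Finset.max'_mem _ hn1, fun t ht => Finset.le_max' _ t ht⟩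
  obtain ⟨b, hb, hbmin⟩ : ∃ b ∈ T.filter (fun t => φ ≤ t ∧ t ≤ β),
      ∀ t ∈ T.filter (fun t => φ ≤ t ∧ t ≤ β), b ≤ t :=
    ⟨_, Finset.min'_mem _ hn2, fun t ht => Finset.min'_le _ t ht⟩
  obtain ⟨haT, hαa, haφ⟩ := Finset.mem_filter.1 ha
  obtain ⟨hbT, hφb, hbβ⟩ := Finset.mem_filter.1 hb
  have ha_mem : a ∈ Icc α β := ⟨hαa, haφ.trans hφ.2⟩
  have hb_mem : b ∈ Icc α β := ⟨hφ.1.trans hφb, hbβ⟩
  obtain ⟨ia, hia, hva⟩ := hT a haT ha_mem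
  obtain ⟨ib, hib, hvb⟩ := hT b hbT hb_mem
  obtain ⟨k, hk, hkmax⟩ := Finset.exists_max_image J (fun i => H i φ) ⟨ia, hia⟩
  have claima : ∀ i ∈ J, H i a ≤ H k a := by
    intro i hi
    by_contra hcon
    push Not at hcon
    have hik : k ≠ i := fun h => by subst h; exact lt_irrefl _ hcon
    have hsub : Icc a φ ⊆ Icc α β := Icc_subset_Icc hαa hφ.2
    have := intermediate_value_Icc haφ (((hcH k).sub (hcH i)).mono hsub)
    obtain ⟨t, ht, h0⟩ := this (show (0 : ℝ) ∈ Icc _ _ from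
      ⟨by simp only [Pi.sub_apply]; linarith, by
        simp only [Pi.sub_apply]; linarith [hkmax i hi]⟩)
    simp only [Pi.sub_apply] at h0
    have htT : t ∈ T := hag k i hik t (hsub ht) (by linarith)
    have hta : t ≤ a := hamax t (Finset.mem_filter.2 ⟨htT, hαa.trans ht.1, ht.2⟩)
    have : t = a := le_antisymm hta ht.1
    subst this
    linarith
  have claimb : ∀ i ∈ J, H i b ≤ H k b := by
    intro i hi
    by_contra hcon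
    push Not at hcon
    have hik : k ≠ i := fun h => by subst h; exact lt_irrefl _ hcon
    have hsub : Icc φ b ⊆ Icc α β := Icc_subset_Icc hφ.1 hbβ
    have := intermediate_value_Icc' hφb (((hcH k).sub (hcH i)).mono hsub)
    obtain ⟨t, ht, h0⟩ := this (show (0 : ℝ) ∈ Icc _ _ from
      ⟨by simp only [Pi.sub_apply]; linarith, by
        simp only [Pi.sub_apply]; linarith [hkmax i hi]⟩)
    simp only [Pi.sub_apply] at h0
    have htT : t ∈ T := hag k i hik t (hsub ht) (by linarith)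
    have hta : b ≤ t := hbmin t (Finset.mem_filter.2 ⟨htT, ht.1, ht.2.trans hbβ⟩)
    have : t = b := le_antisymm ht.2 hta
    subst this
    linarith
  refine ⟨k, hk, le_antisymm ?_ (hlow k hk φ hφ)⟩
  have h1 := hqc k a φ b hαa haφ hφb hbβ
  have h2 := claima ia hia
  have h3 := claimb ib hib
  have h4 : max (v a - H k a) (v b - H k b) ≤ u := max_le (by linarith) (by linarith)
  linarith

theorem main : S_QC → S_CURVE → S_KAP → S_ZERO → S_ARCV → S_ARCG → S_GENG → S_GERM → S_LOW →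
    S_MAXF := by
  intro hQC hCURVE hKAP hZERO hARCV hARCG hGENG hGERM hLOW r R U B h hR hU D hB h0 hh φ₀
  classical
  obtain ⟨κ, δ₀, ε₀, hδ₀, hδ1, hε₀, hstrip, hord, -⟩ :=
    hKAP r R 0 B hR hB (fun i j hij s hs => D.ne i j hij s hs) φ₀
  simp only [pow_zero, div_one] at hord
  have hne : ∀ i j, i ≠ j → ∀ q ∈ Ioo 0 ε₀, ∀ φ ∈ Icc (φ₀ - δ₀) (φ₀ + δ₀),
      (B i (Gm κ φ₀ q φ) * ((κ + Complex.I) * Gm κ φ₀ q φ)).re ≠
      (B j (Gm κ φ₀ q φ) * ((κ + Complex.I) * Gm κ φ₀ q φ)).re := by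
    intro i j hij q hq φ hφ
    rcases hord i j hij with h | h
    · exact (h q hq φ hφ).ne
    · exact (h q hq φ hφ).ne'
  have hC := fun q (hq : q ∈ Ioo 0 ε₀) => hCURVE r _ U B D (fun t => Gm κ φ₀ q t)
    (φ₀ - δ₀) (φ₀ + δ₀) (fun t ht => ⟨hstrip q hq t (Ioo_subset_Icc_self ht),
      (contDiff_Gm κ φ₀ q).contDiffAt⟩)
  have hdv : ∀ q ∈ Ioo 0 ε₀, ∀ t ∈ Ioo (φ₀ - δ₀) (φ₀ + δ₀), ∃ i,
      HasDerivWithinAt (fun t => U (Gm κ φ₀ q t))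
        ((B i (Gm κ φ₀ q t) * ((κ + Complex.I) * Gm κ φ₀ q t)).re) (Ioi t) t := by
    intro q hq t ht
    obtain ⟨i, hi⟩ := (hC q hq).2 t ht
    rw [(hasDerivAt_Gm κ φ₀ q t).deriv] at hi
    exact ⟨i, hi⟩
  have hdH : ∀ i, ∀ q ∈ Ioo 0 ε₀, ∀ t ∈ Icc (φ₀ - δ₀) (φ₀ + δ₀),
      HasDerivAt (fun t => (h i (Gm κ φ₀ q t)).re)
        ((B i (Gm κ φ₀ q t) * ((κ + Complex.I) * Gm κ φ₀ q t)).re) t :=
    fun i q hq t ht => hasDerivAt_H (hh i _ (hstrip q hq t ht).1)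
  obtain ⟨M, hM0, ε₁, hε₁, hε₁₀, hM⟩ := bounded (κ := κ) (φ₀ := φ₀) (δ := δ₀) hR hε₀ hB
  have hlipv : ∀ q ∈ Ioo 0 ε₁, ∀ x ∈ Ioo (φ₀ - δ₀) (φ₀ + δ₀), ∀ y ∈ Ioo (φ₀ - δ₀) (φ₀ + δ₀),
      |U (Gm κ φ₀ q y) - U (Gm κ φ₀ q x)| ≤ M * |y - x| := by
    intro q hq
    have hq0 : q ∈ Ioo 0 ε₀ := ⟨hq.1, hq.2.trans_le hε₁₀⟩
    refine lip (v := fun t => U (Gm κ φ₀ q t)) (cont_of_SC1 (hC q hq0).1) ?_
    intro t ht
    obtain ⟨i, hi⟩ := hdv q hq0 t ht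
    exact ⟨_, hM i q hq t (Ioo_subset_Icc_self ht), hi⟩
  have hlipH : ∀ i, ∀ q ∈ Ioo 0 ε₁, ∀ x ∈ Ioo (φ₀ - δ₀) (φ₀ + δ₀),
      ∀ y ∈ Ioo (φ₀ - δ₀) (φ₀ + δ₀),
      |(h i (Gm κ φ₀ q y)).re - (h i (Gm κ φ₀ q x)).re| ≤ M * |y - x| := by
    intro i q hq
    have hq0 : q ∈ Ioo 0 ε₀ := ⟨hq.1, hq.2.trans_le hε₁₀⟩
    refine lip (v := fun t => (h i (Gm κ φ₀ q t)).re)
      (fun t ht => (hdH i q hq0 t (Ioo_subset_Icc_self ht)).continuousAt) ?_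
    intro t ht
    exact ⟨_, hM i q hq t (Ioo_subset_Icc_self ht),
      (hdH i q hq0 t (Ioo_subset_Icc_self ht)).hasDerivWithinAt⟩
  have hQ : ∀ q ∈ Ioo 0 ε₀, ∀ i x y z, φ₀ - δ₀ < x → x ≤ y → y ≤ z → z < φ₀ + δ₀ →
      U (Gm κ φ₀ q y) - (h i (Gm κ φ₀ q y)).re ≤
        max (U (Gm κ φ₀ q x) - (h i (Gm κ φ₀ q x)).re)
          (U (Gm κ φ₀ q z) - (h i (Gm κ φ₀ q z)).re) := by
    intro q hq
    have hcB : ∀ i, ContinuousOn (fun t => (B i (Gm κ φ₀ q t) *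
        ((κ + Complex.I) * Gm κ φ₀ q t)).re) (Ioo (φ₀ - δ₀) (φ₀ + δ₀)) := by
      intro i
      have hg : ContinuousOn (fun t => Gm κ φ₀ q t) (Ioo (φ₀ - δ₀) (φ₀ + δ₀)) :=
        (contDiff_Gm κ φ₀ q).continuous.continuousOn
      refine Complex.continuous_re.comp_continuousOn (ContinuousOn.mul ?_
        (continuousOn_const.mul hg))
      exact (hB i).continuousOn.comp hg
        fun t ht => (hstrip q hq t (Ioo_subset_Icc_self ht)).1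
    have := hQC r (φ₀ - δ₀) (φ₀ + δ₀) (fun t => U (Gm κ φ₀ q t))
      (fun i t => (B i (Gm κ φ₀ q t) * ((κ + Complex.I) * Gm κ φ₀ q t)).re)
      (fun i t => (h i (Gm κ φ₀ q t)).re) (hC q hq).1 hcB ?_ (hdv q hq)
      (fun i t ht => hdH i q hq t (Ioo_subset_Icc_self ht))
    · exact this.1
    · intro i j
      by_cases hij : i = j
      · subst hij
        exact Or.inl fun t _ => rfl
      · rcases hord i j hij with h | h
        · exact Or.inr (Or.inl fun t ht => h q hq t (Ioo_subset_Icc_self ht))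
        · exact Or.inr (Or.inr fun t ht => h q hq t (Ioo_subset_Icc_self ht))
  -- eventual statements
  have hq0 : ∀ e : ℝ, 0 < e → ∀ᶠ q in 𝓝[>] (0 : ℝ), q ∈ Ioo 0 e := fun e he =>
    Ioo_mem_nhdsGT he
  have hin : ∀ Φ : ℝ → ℝ, AnalyticAt ℝ Φ 0 → |Φ 0 - φ₀| < δ₀ →
      ∀ᶠ q in 𝓝[>] (0 : ℝ), Φ q ∈ Ioo (φ₀ - δ₀) (φ₀ + δ₀) := by
    intro Φ hΦ hΦ0
    have h1 : Φ 0 ∈ Ioo (φ₀ - δ₀) (φ₀ + δ₀) := by
      rw [abs_lt] at hΦ0; constructor <;> linarith [hΦ0.1, hΦ0.2]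
    exact (hΦ.continuousAt.eventually (isOpen_Ioo.mem_nhds h1)).filter_mono nhdsWithin_le_nhds
  let J : Finset (Fin r) := Finset.univ.filter fun i => ∃ Φ : ℝ → ℝ, AnalyticAt ℝ Φ 0 ∧
    |Φ 0 - φ₀| < δ₀ ∧ ∀ᶠ q in 𝓝[>] (0 : ℝ),
      U (Gm κ φ₀ q (Φ q)) = U 0 + (h i (Gm κ φ₀ q (Φ q))).re ∧
      HasFDerivAt U (gr (B i (Gm κ φ₀ q (Φ q)))) (Gm κ φ₀ q (Φ q))
  -- (1)
  have h1 : ∀ i ∈ J, ∀ᶠ q in 𝓝[>] (0 : ℝ), ∀ φ ∈ Ioo (φ₀ - δ₀) (φ₀ + δ₀),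
      U 0 + (h i (Gm κ φ₀ q φ)).re ≤ U (Gm κ φ₀ q φ) := by
    intro i hi
    obtain ⟨Φ, hΦ, hΦ0, hev⟩ := (Finset.mem_filter.1 hi).2
    filter_upwards [hev, hin Φ hΦ hΦ0, hq0 ε₀ hε₀] with q hq1 hq2 hq3 φ hφ
    have := hLOW r R κ φ₀ δ₀ ε₀ U B h hR hδ₀ hε₀ D hB hh hstrip hne q (Φ q) i hq3 hq2 hq1.2 φ hφ
    linarith [hq1.1]
  -- (2)
  have h2 : ∀ Φ : ℝ → ℝ, AnalyticAt ℝ Φ 0 → |Φ 0 - φ₀| < δ₀ → ∀ᶠ q in 𝓝[>] (0 : ℝ),
      ∃ i ∈ J, U (Gm κ φ₀ q (Φ q)) = U 0 + (h i (Gm κ φ₀ q (Φ q))).re := by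
    intro Φ hΦ hΦ0
    have hγ := analyticAt_arc κ φ₀ Φ hΦ
    obtain ⟨j, εj, hεj, hj⟩ := hARCV r R U B h hR hU D hB h0 hh
      (fun q => Gm κ φ₀ q (Φ q)) hγ (arc_zero κ φ₀ Φ) (deriv_arc κ φ₀ Φ hΦ)
    have hjev : ∀ᶠ q in 𝓝[>] (0 : ℝ),
        U (Gm κ φ₀ q (Φ q)) = U 0 + (h j (Gm κ φ₀ q (Φ q))).re := by
      filter_upwards [hq0 εj hεj] with q hq
      exact (hj q hq).2.1
    have hha : ∀ i, AnalyticAt ℝ (fun q => (h i (Gm κ φ₀ q (Φ q))).re) 0 := by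
      intro i
      have hdi : DifferentiableOn ℂ (h i) (ball 0 R) := fun s hs =>
        (hh i s hs).differentiableAt.differentiableWithinAt
      have ha : AnalyticAt ℂ (h i) (Gm κ φ₀ 0 (Φ 0)) := by
        rw [arc_zero]
        exact hdi.analyticAt (ball_mem_nhds 0 hR)
      have hb : AnalyticAt ℝ (h i) (Gm κ φ₀ 0 (Φ 0)) := ha.restrictScalars
      have hc : AnalyticAt ℝ (fun q => h i (Gm κ φ₀ q (Φ q))) 0 :=
        AnalyticAt.fun_comp (g := h i) (f := fun q => Gm κ φ₀ q (Φ q)) hb hγ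
      exact AnalyticAt.fun_comp (g := Complex.re) (f := fun q => h i (Gm κ φ₀ q (Φ q)))
        (Complex.reCLM.analyticAt _) hc
    by_cases hgood : ∃ i ∈ J, ∀ᶠ q in 𝓝[>] (0 : ℝ),
        (h j (Gm κ φ₀ q (Φ q))).re = (h i (Gm κ φ₀ q (Φ q))).re
    · obtain ⟨i, hi, hev⟩ := hgood
      filter_upwards [hjev, hev] with q hq1 hq2
      exact ⟨i, hi, by rw [hq1, hq2]⟩
    exfalso
    push Not at hgood
    have hsep : ∀ i ∈ J, ∃ (c : ℝ) (m : ℕ), 0 < c ∧ ∀ᶠ q in 𝓝[>] (0 : ℝ),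
        (h j (Gm κ φ₀ q (Φ q))).re - (h i (Gm κ φ₀ q (Φ q))).re ≥ c * q ^ m := by
      intro i hi
      rcases hGERM _ _ (hha j) (hha i) with h | h | h
      · exact absurd h (not_eventually.2 (hgood i hi))
      · exact h
      · exfalso
        obtain ⟨c, m, hc, hev⟩ := h
        have := (hev.and ((h1 i hi).and (hjev.and ((hin Φ hΦ hΦ0).and (hq0 1 one_pos))))).exists
        obtain ⟨q, ha, hb, hc', hd, he⟩ := this
        have hlow := hb _ hd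
        have : 0 < c * q ^ m := mul_pos hc (pow_pos he.1 _)
        linarith
    choose! c m hc hcm using hsep
    obtain ⟨c', hc', hgen⟩ := hGENG r R κ φ₀ δ₀ ε₀ B h hR hδ₀ hε₀ hB h0 hh hstrip hne Φ
      (J.sup m + 1) 1 hΦ hΦ0 one_pos
    let Φ' : ℝ → ℝ := fun q => Φ q + c' * q ^ (J.sup m + 1)
    have hΦ' : AnalyticAt ℝ Φ' 0 :=
      hΦ.add (analyticAt_const.mul (analyticAt_id.pow _))
    have hΦ'0 : |Φ' 0 - φ₀| < δ₀ := by
      simpa [Φ'] using hΦ0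
    obtain ⟨i, εi, hεi, hi⟩ := hARCG r R U B h hR hU D hB h0 hh
      (fun q => Gm κ φ₀ q (Φ' q)) (analyticAt_arc κ φ₀ Φ' hΦ') (arc_zero κ φ₀ Φ')
      (deriv_arc κ φ₀ Φ' hΦ') hgen
    have hiev : ∀ᶠ q in 𝓝[>] (0 : ℝ),
        U (Gm κ φ₀ q (Φ' q)) = U 0 + (h i (Gm κ φ₀ q (Φ' q))).re ∧
        HasFDerivAt U (gr (B i (Gm κ φ₀ q (Φ' q)))) (Gm κ φ₀ q (Φ' q)) := by
      filter_upwards [hq0 εi hεi] with q hq
      exact (hi q hq).2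
    have hiJ : i ∈ J := Finset.mem_filter.2 ⟨Finset.mem_univ _, Φ', hΦ', hΦ'0, hiev⟩
    have hci := hc i hiJ
    have hmi : m i ≤ J.sup m := Finset.le_sup hiJ
    have hsmall : 0 < c i / (2 * M + 1) := by positivity
    have hfin := ((hcm i hiJ).and (hiev.and (hjev.and ((hin Φ hΦ hΦ0).and
      ((hin Φ' hΦ' hΦ'0).and ((hq0 1 one_pos).and ((hq0 ε₁ hε₁).and
        (hq0 _ hsmall)))))))).exists
    obtain ⟨q, e1, e2, e3, e4, e5, e6, e7, e8⟩ := hfin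
    have f1 := hlipv q e7 _ e5 _ e4
    have f2 := hlipH i q e7 _ e4 _ e5
    have f3 : |Φ q - Φ' q| ≤ q * q ^ m i := by
      have hx : Φ q - Φ' q = -(c' * q ^ (J.sup m + 1)) := by simp [Φ']
      rw [hx, abs_neg, abs_mul, abs_of_pos (pow_pos e6.1 _)]
      calc |c'| * q ^ (J.sup m + 1) ≤ 1 * q ^ (m i + 1) :=
            mul_le_mul hc'.le (pow_le_pow_of_le_one e6.1.le e6.2.le (by omega))
              (pow_pos e6.1 _).le zero_le_one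
        _ = q * q ^ m i := by ring
    have f4 : |Φ' q - Φ q| ≤ q * q ^ m i := by rw [abs_sub_comm]; exact f3
    have f5 : M * |Φ q - Φ' q| ≤ M * (q * q ^ m i) := mul_le_mul_of_nonneg_left f3 hM0
    have f6 : M * |Φ' q - Φ q| ≤ M * (q * q ^ m i) := mul_le_mul_of_nonneg_left f4 hM0
    have f7 := (abs_le.1 (f1.trans f5)).2
    have f8 := (abs_le.1 (f2.trans f6)).2
    have hqm : 0 < q ^ m i := pow_pos e6.1 _
    have f9 : c i * q ^ m i ≤ 2 * M * q * q ^ m i := by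
      have := e2.1
      linarith
    have f10 : c i ≤ 2 * M * q := le_of_mul_le_mul_right f9 hqm
    have f11 : q * (2 * M + 1) < c i := (lt_div_iff₀ (by positivity)).1 e8.2
    have : 0 < q := e6.1
    nlinarith
  -- zeros
  have h3 : ∀ i j, i ≠ j → ∃ Φ : ℝ → ℝ, AnalyticAt ℝ Φ 0 ∧ |Φ 0 - φ₀| < δ₀ ∧
      ∀ᶠ q in 𝓝[>] (0 : ℝ), ∀ φ ∈ Icc (φ₀ - δ₀ / 2) (φ₀ + δ₀ / 2),
        (h i (Gm κ φ₀ q φ)).re = (h j (Gm κ φ₀ q φ)).re → φ = Φ q := by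
    intro i j hij
    have hG : ∀ s ∈ ball (0 : ℂ) R, HasDerivAt (fun s => h i s - h j s) (B i s - B j s) s :=
      fun s hs => (hh i s hs).sub (hh j s hs)
    have hsgn : (∀ q ∈ Ioo 0 ε₀, ∀ φ ∈ Icc (φ₀ - δ₀) (φ₀ + δ₀),
        0 < (deriv (fun s => h i s - h j s) (Gm κ φ₀ q φ) *
          ((κ + Complex.I) * Gm κ φ₀ q φ)).re) ∨
      (∀ q ∈ Ioo 0 ε₀, ∀ φ ∈ Icc (φ₀ - δ₀) (φ₀ + δ₀),
        (deriv (fun s => h i s - h j s) (Gm κ φ₀ q φ) *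
          ((κ + Complex.I) * Gm κ φ₀ q φ)).re < 0) := by
      rcases hord i j hij with h | h
      · right
        intro q hq φ hφ
        rw [(hG _ (hstrip q hq φ hφ).1).deriv, sub_mul, Complex.sub_re]
        linarith [h q hq φ hφ]
      · left
        intro q hq φ hφ
        rw [(hG _ (hstrip q hq φ hφ).1).deriv, sub_mul, Complex.sub_re]
        linarith [h q hq φ hφ]
    obtain ⟨ε', hε', hε'0, hZ⟩ := hZERO R κ φ₀ δ₀ (δ₀ / 2) ε₀ (fun s => h i s - h j s) hR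
      (by linarith) (by linarith) hε₀
      (fun s hs => (hG s hs).differentiableAt.differentiableWithinAt) (by simp [h0]) hstrip hsgn
    rcases hZ with hZ | ⟨Φ, hΦ, hΦ0, hZ⟩
    · refine ⟨fun _ => φ₀, analyticAt_const, by simpa using hδ₀, ?_⟩
      filter_upwards [hq0 ε' hε'] with q hq φ hφ heq
      exact absurd (by rw [Complex.sub_re, heq, sub_self]) (hZ q hq φ hφ)
    · refine ⟨Φ, hΦ, hΦ0, ?_⟩
      filter_upwards [hq0 ε' hε'] with q hq φ hφ heq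
      exact (hZ q hq).2.2 φ hφ (by rw [Complex.sub_re, heq, sub_self])
  choose! Ψ hΨa hΨ0 hΨ using h3
  have hev : ∀ᶠ q in 𝓝[>] (0 : ℝ), q ∈ Ioo 0 ε₀ ∧
      (∀ i ∈ J, ∀ φ ∈ Ioo (φ₀ - δ₀) (φ₀ + δ₀),
        U 0 + (h i (Gm κ φ₀ q φ)).re ≤ U (Gm κ φ₀ q φ)) ∧
      (∀ i j, i ≠ j → ∃ k ∈ J, U (Gm κ φ₀ q (Ψ i j q)) =
        U 0 + (h k (Gm κ φ₀ q (Ψ i j q))).re) ∧
      (∀ i j, i ≠ j → ∀ φ ∈ Icc (φ₀ - δ₀ / 2) (φ₀ + δ₀ / 2),
        (h i (Gm κ φ₀ q φ)).re = (h j (Gm κ φ₀ q φ)).re → φ = Ψ i j q) ∧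
      (∃ k ∈ J, U (Gm κ φ₀ q (φ₀ - δ₀ / 2)) = U 0 + (h k (Gm κ φ₀ q (φ₀ - δ₀ / 2))).re) ∧
      (∃ k ∈ J, U (Gm κ φ₀ q (φ₀ + δ₀ / 2)) = U 0 + (h k (Gm κ φ₀ q (φ₀ + δ₀ / 2))).re) := by
    refine (hq0 ε₀ hε₀).and (Eventually.and ?_ (Eventually.and ?_ (Eventually.and ?_
      (Eventually.and ?_ ?_))))
    · exact (Finset.eventually_all J).2 h1
    · refine eventually_all.2 fun i => eventually_all.2 fun j => ?_
      by_cases hij : i = j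
      · exact Eventually.of_forall fun q h => absurd hij h
      · filter_upwards [h2 (Ψ i j) (hΨa i j hij) (hΨ0 i j hij)] with q hq _
        exact hq
    · refine eventually_all.2 fun i => eventually_all.2 fun j => ?_
      by_cases hij : i = j
      · exact Eventually.of_forall fun q h => absurd hij h
      · filter_upwards [hΨ i j hij] with q hq _
        exact hq
    · exact h2 (fun _ => φ₀ - δ₀ / 2) analyticAt_const (by
        rw [abs_lt]; constructor <;> linarith)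
    · exact h2 (fun _ => φ₀ + δ₀ / 2) analyticAt_const (by
        rw [abs_lt]; constructor <;> linarith)
  obtain ⟨ε, hε, hsub⟩ := mem_nhdsGT_iff_exists_Ioo_subset.1 hev
  have hε' : 0 < ε := hε
  have hs : ∀ φ ∈ Icc (φ₀ - δ₀ / 2) (φ₀ + δ₀ / 2), φ ∈ Icc (φ₀ - δ₀) (φ₀ + δ₀) :=
    fun φ hφ => ⟨by linarith [hφ.1], by linarith [hφ.2]⟩
  have hs' : ∀ φ ∈ Icc (φ₀ - δ₀ / 2) (φ₀ + δ₀ / 2), φ ∈ Ioo (φ₀ - δ₀) (φ₀ + δ₀) :=
    fun φ hφ => ⟨by linarith [hφ.1], by linarith [hφ.2]⟩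
  refine ⟨κ, δ₀ / 2, ε, J, by linarith, by linarith, hε',
    fun q hq φ hφ => hstrip q (hsub hq).1 φ (hs φ hφ), fun i j hij => ?_, fun q hq => ?_⟩
  · rcases hord i j hij with h | h
    · exact Or.inl fun q hq φ hφ => h q (hsub hq).1 φ (hs φ hφ)
    · exact Or.inr fun q hq φ hφ => h q (hsub hq).1 φ (hs φ hφ)
  · obtain ⟨g1, g2, g3, g4, g5, g6⟩ := hsub hq
    intro φ hφ
    refine ⟨?_, fun i hi => g2 i hi φ (hs' φ hφ)⟩
    refine final (α := φ₀ - δ₀ / 2) (β := φ₀ + δ₀ / 2) (u := U 0) (J := J)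
      (v := fun φ => U (Gm κ φ₀ q φ)) (H := fun i φ => (h i (Gm κ φ₀ q φ)).re)
      (insert (φ₀ - δ₀ / 2) (insert (φ₀ + δ₀ / 2)
        (((Finset.univ : Finset (Fin r × Fin r)).filter fun p => p.1 ≠ p.2).image
          fun p => Ψ p.1 p.2 q))) ?_ (by simp) (by simp) ?_ ?_ ?_ ?_ φ hφ
    · intro i t ht
      exact (hdH i q g1 t (hs t ht)).continuousAt.continuousWithinAt
    · intro t ht _
      simp only [Finset.mem_insert, Finset.mem_image, Finset.mem_filter, Finset.mem_univ,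
        true_and, Prod.exists] at ht
      rcases ht with rfl | rfl | ⟨i, j, hij, rfl⟩
      · exact g5
      · exact g6
      · exact g3 i j hij
    · intro i hi t ht
      exact g2 i hi t (hs' t ht)
    · intro i j hij t ht heq
      have := g4 i j hij t ht heq
      simp only [Finset.mem_insert, Finset.mem_image, Finset.mem_filter, Finset.mem_univ,
        true_and, Prod.exists]
      exact Or.inr (Or.inr ⟨i, j, hij, this.symm⟩)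
    · intro i x y z hx hxy hyz hz
      exact hQ q g1 i x y z (by linarith) hxy hyz (by linarith)

end Pool.Agent.W155.CQ.MAXF
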